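import Mathlib

set_option autoImplicit false

namespace Pool.Agent.Results.MP_2e9c83_an.Universal

open Filter Topology

universe u

section Defs
variable {𝕜 : Type} [RCLike 𝕜] {X : Type u} {Y : Type u} [NormedAddCommGroup X] [NormedSpace 𝕜 X]
  [NormedAddCommGroup Y] [NormedSpace 𝕜 Y]

/-- Absolutely strongly exposing operators. -/
def ASE (T : X →L[𝕜] Y) : Prop :=
  ∃ x₀ : X, ‖x₀‖ = 1 ∧ ∀ x : ℕ → X, (∀ n, ‖x n‖ ≤ 1) → Tendsto (fun n => ‖T (x n)‖) atTop (𝓝 ‖T‖) →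
    ∃ σ : ℕ → ℕ, StrictMono σ ∧ ∃ l : 𝕜, ‖l‖ = 1 ∧ Tendsto (fun n => x (σ n)) atTop (𝓝 (l • x₀))

/-- Range strongly exposing operators. -/
def RSE (T : X →L[𝕜] Y) : Prop :=
  ∃ x₀ : X, ‖x₀‖ = 1 ∧ ∀ x : ℕ → X, (∀ n, ‖x n‖ ≤ 1) → Tendsto (fun n => ‖T (x n)‖) atTop (𝓝 ‖T‖) →
    ∃ σ : ℕ → ℕ, StrictMono σ ∧ ∃ l : 𝕜, ‖l‖ = 1 ∧
      Tendsto (fun n => T (x (σ n))) atTop (𝓝 (l • T x₀))

/-- Bishop-Phelps-Bollobás property with approximating operators in the class `P`. -/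
def BPBp (P : (X →L[𝕜] Y) → Prop) : Prop :=
  ∀ ε : ℝ, 0 < ε → ∃ η : ℝ, 0 < η ∧ η < ε ∧ ∀ (T : X →L[𝕜] Y) (x : X), ‖T‖ = 1 → ‖x‖ = 1 →
    1 - η < ‖T x‖ → ∃ (S : X →L[𝕜] Y) (x₀ : X), P S ∧ ‖x₀‖ = 1 ∧ ‖S‖ = 1 ∧ ‖S x₀‖ = 1 ∧
      ‖S - T‖ < ε ∧ ‖x - x₀‖ < ε
end Defs

/-- `(X, Z)` has the BPBp-RSE for every Banach space `Z`. -/
def UniversalRSE (𝕜 : Type) [RCLike 𝕜] (X : Type u) [NormedAddCommGroup X] [NormedSpace 𝕜 X] : Prop :=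
  ∀ (Z : Type u) [NormedAddCommGroup Z] [NormedSpace 𝕜 Z] [CompleteSpace Z],
    BPBp (RSE : (X →L[𝕜] Z) → Prop)

/-- `(X, Z)` has the BPBp-ASE for every Banach space `Z`. -/
def UniversalASE (𝕜 : Type) [RCLike 𝕜] (X : Type u) [NormedAddCommGroup X] [NormedSpace 𝕜 X] : Prop :=
  ∀ (Z : Type u) [NormedAddCommGroup Z] [NormedSpace 𝕜 Z] [CompleteSpace Z],
    BPBp (ASE : (X →L[𝕜] Z) → Prop)

theorem ase_of_below {𝕜 : Type} [RCLike 𝕜] {X Y : Type u} [NormedAddCommGroup X] [NormedSpace 𝕜 X]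
    [NormedAddCommGroup Y] [NormedSpace 𝕜 Y] (S : X →L[𝕜] Y) (c : ℝ) (hc : 0 < c)
    (hb : ∀ v, c * ‖v‖ ≤ ‖S v‖) (h : RSE S) : ASE S := by
  obtain ⟨x₀, h0, h⟩ := h
  refine ⟨x₀, h0, fun x hx ht => ?_⟩
  obtain ⟨σ, hσ, l, hl, hlim⟩ := h x hx ht
  refine ⟨σ, hσ, l, hl, ?_⟩
  rw [tendsto_iff_norm_sub_tendsto_zero] at hlim ⊢
  have h2 := hlim.const_mul c⁻¹
  rw [mul_zero] at h2
  refine squeeze_zero (fun _ => norm_nonneg _) (fun n => ?_) h2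
  have := hb (x (σ n) - l • x₀)
  rw [map_sub, map_smul] at this
  rw [← div_eq_inv_mul, le_div_iff₀ hc]
  linarith

theorem result (𝕜 : Type) [RCLike 𝕜] (X : Type u) [NormedAddCommGroup X] [NormedSpace 𝕜 X]
    [CompleteSpace X] (h : UniversalRSE 𝕜 X) : UniversalASE 𝕜 X := by
  intro Z _ _ _ ε hε
  set δ : ℝ := min (ε / 8) 1 with hδ
  have hδ0 : 0 < δ := by positivity
  have hδ1 : δ ≤ 1 := min_le_right _ _
  have hδε : δ ≤ ε / 8 := min_le_left _ _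
  obtain ⟨η, hη0, hη1, H⟩ := h (WithLp 1 (Z × X)) (δ / 4) (by positivity)
  refine ⟨η, hη0, by linarith, fun T x hT hx hTx => ?_⟩
  let T' : X →L[𝕜] WithLp 1 (Z × X) :=
    (WithLp.prodContinuousLinearEquiv 1 𝕜 Z X).symm.toContinuousLinearMap ∘L
      (T.prod ((δ : 𝕜) • ContinuousLinearMap.id 𝕜 X))
  have hT'1 : ∀ v, (T' v).fst = T v := fun v => rfl
  have hT'2 : ∀ v, (T' v).snd = (δ : 𝕜) • v := fun v => rfl
  have hnδ : ‖(δ : 𝕜)‖ = δ := by rw [RCLike.norm_ofReal, abs_of_pos hδ0]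
  have hT'n : ∀ v, ‖T' v‖ = ‖T v‖ + δ * ‖v‖ := fun v => by
    rw [WithLp.prod_norm_eq_of_L1, hT'1, hT'2, norm_smul, hnδ]
  have hTv : ∀ v, ‖T v‖ ≤ ‖v‖ := fun v => by simpa [hT] using T.le_opNorm v
  have hM1 : ‖T'‖ ≤ 1 + δ := T'.opNorm_le_bound (by positivity) fun v => by
    rw [hT'n]; nlinarith [hTv v]
  have hM0 : 1 ≤ ‖T'‖ := by
    rw [← hT]
    refine T.opNorm_le_bound (norm_nonneg _) fun v => ?_
    have := T'.le_opNorm v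
    rw [hT'n] at this
    nlinarith [norm_nonneg v]
  set M := ‖T'‖ with hM
  have hMp : 0 < M := by linarith
  have hnM : ‖((M⁻¹ : ℝ) : 𝕜)‖ = M⁻¹ := by rw [RCLike.norm_ofReal, abs_of_pos (by positivity)]
  obtain ⟨S', x₀, hS', hx₀, hS1, hS0, hd, hxx⟩ := H (((M⁻¹ : ℝ) : 𝕜) • T') x
    (by rw [norm_smul, hnM, inv_mul_cancel₀ hMp.ne']) hx (by
      rw [smul_apply, norm_smul, hnM, hT'n, hx, ← div_eq_inv_mul, lt_div_iff₀ hMp]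
      have : η < 1 := by linarith
      nlinarith)
  have hdv : ∀ v, ‖S' v - ((M⁻¹ : ℝ) : 𝕜) • T' v‖ ≤ δ / 4 * ‖v‖ := fun v => by
    have := (S' - ((M⁻¹ : ℝ) : 𝕜) • T').le_opNorm v
    rw [sub_apply, smul_apply] at this
    exact this.trans (mul_le_mul_of_nonneg_right hd.le (norm_nonneg _))
  have hMi : 1 - δ ≤ M⁻¹ := by
    rw [← one_div, le_div_iff₀ hMp]; nlinarith
  have hMi2 : 1 / 2 ≤ M⁻¹ := by
    rw [← one_div, le_div_iff₀ hMp]; nlinarith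
  have hMi1 : M⁻¹ ≤ 1 := inv_le_one_of_one_le₀ hM0
  have hbelow : ∀ v, δ / 4 * ‖v‖ ≤ ‖S' v‖ := fun v => by
    have h1 := norm_sub_norm_le (((M⁻¹ : ℝ) : 𝕜) • T' v) (S' v)
    rw [norm_sub_rev, norm_smul, hnM, hT'n] at h1
    have h2 := hdv v
    have h3 : 1 / 2 * (δ * ‖v‖) ≤ M⁻¹ * (‖T v‖ + δ * ‖v‖) :=
      mul_le_mul hMi2 (by linarith [norm_nonneg (T v)]) (by positivity) (by positivity)
    linarith
  obtain ⟨x₁, hx₁, hA⟩ := ase_of_below S' _ (by positivity) hbelow hS'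
  -- unit vector in the direction of the first coordinate
  obtain ⟨y, hy1, hy⟩ : ∃ y : Z, ‖y‖ ≤ 1 ∧ ∀ t : ℝ, 0 ≤ t →
      ‖(S' x₀).fst + (t : 𝕜) • y‖ = ‖(S' x₀).fst‖ + t := by
    have key : ∀ w : Z, w ≠ 0 → ∀ s t : ℝ, 0 ≤ s → 0 ≤ t →
        ‖(s : 𝕜) • w + (t : 𝕜) • (((‖w‖⁻¹ : ℝ) : 𝕜) • w)‖ = s * ‖w‖ + t := by
      intro w hw s t hs ht
      have hw0 : 0 < ‖w‖ := norm_pos_iff.mpr hw
      rw [smul_smul, ← add_smul, ← RCLike.ofReal_mul, ← RCLike.ofReal_add, norm_smul,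
        RCLike.norm_ofReal, abs_of_nonneg (by positivity)]
      field_simp
    have hn : ∀ w : Z, w ≠ 0 → ‖((‖w‖⁻¹ : ℝ) : 𝕜) • w‖ ≤ 1 := by
      intro w hw
      have hw0 : 0 < ‖w‖ := norm_pos_iff.mpr hw
      rw [norm_smul, RCLike.norm_ofReal, abs_of_nonneg (by positivity), inv_mul_cancel₀ hw0.ne']
    by_cases hz : (S' x₀).fst = 0
    · have hTx0 : T x ≠ 0 := by
        intro h0; rw [h0, norm_zero] at hTx; linarith
      refine ⟨_, hn _ hTx0, fun t ht => ?_⟩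
      have := key _ hTx0 0 t le_rfl ht
      rw [hz]; simpa using this
    · refine ⟨_, hn _ hz, fun t ht => ?_⟩
      have := key _ hz 1 t zero_le_one ht
      simpa using this
  obtain ⟨g, hg1, hg⟩ := exists_dual_vector'' 𝕜 (S' x₀).snd
  let S : X →L[𝕜] Z := WithLp.fstL 1 𝕜 Z X ∘L S' + (g ∘L (WithLp.sndL 1 𝕜 Z X ∘L S')).smulRight y
  have hSv : ∀ v, S v = (S' v).fst + g (S' v).snd • y := fun v => rfl
  have hgy : ∀ w : X, ‖g w • y‖ ≤ ‖w‖ := fun w => by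
    rw [norm_smul]
    have := g.le_opNorm w
    have h2 : ‖g‖ * ‖w‖ ≤ ‖w‖ := by nlinarith [norm_nonneg w]
    nlinarith [norm_nonneg (g w)]
  have hSle : ∀ v, ‖S v‖ ≤ ‖S' v‖ := fun v => by
    rw [hSv, WithLp.prod_norm_eq_of_L1]
    exact (norm_add_le _ _).trans (by linarith [hgy (S' v).snd])
  have hS'le : ∀ v, ‖S' v‖ ≤ ‖v‖ := fun v => by simpa [hS1] using S'.le_opNorm v
  have hSx₀ : ‖S x₀‖ = 1 := by
    rw [hSv, hg, hy _ (norm_nonneg _), ← WithLp.prod_norm_eq_of_L1, hS0]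
  have hSn : ‖S‖ = 1 := by
    refine le_antisymm (S.opNorm_le_bound zero_le_one fun v => by
      linarith [hSle v, hS'le v]) ?_
    have := S.le_opNorm x₀
    rwa [hSx₀, hx₀, mul_one] at this
  refine ⟨S, x₀, ⟨x₁, hx₁, fun z hz ht => hA z hz ?_⟩, hx₀, hSn, hSx₀, ?_, by linarith⟩
  · rw [hS1]; rw [hSn] at ht
    exact tendsto_of_tendsto_of_tendsto_of_le_of_le ht tendsto_const_nhds (fun n => hSle _)
      fun n => (hS'le _).trans (hz n)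
  · refine lt_of_le_of_lt ((S - T).opNorm_le_bound (M := 3 * δ) (by positivity) fun v => ?_)
      (by linarith)
    have h1 := hdv v
    rw [WithLp.prod_norm_eq_of_L1] at h1
    have e1 : (S' v - ((M⁻¹ : ℝ) : 𝕜) • T' v).fst = (S' v).fst - ((M⁻¹ : ℝ) : 𝕜) • T v := rfl
    have e2 : (S' v - ((M⁻¹ : ℝ) : 𝕜) • T' v).snd =
        (S' v).snd - ((M⁻¹ : ℝ) : 𝕜) • ((δ : 𝕜) • v) := rfl
    rw [e1, e2] at h1
    have h2 := norm_sub_norm_le (S' v).snd (((M⁻¹ : ℝ) : 𝕜) • ((δ : 𝕜) • v))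
    rw [norm_smul, norm_smul, hnM, hnδ] at h2
    have h3 : ‖((M⁻¹ : ℝ) : 𝕜) • T v - T v‖ ≤ δ * ‖v‖ := by
      have : ((M⁻¹ : ℝ) : 𝕜) • T v - T v = (((M⁻¹ - 1 : ℝ)) : 𝕜) • T v := by
        rw [RCLike.ofReal_sub, sub_smul, RCLike.ofReal_one, one_smul]
      rw [this, norm_smul, RCLike.norm_ofReal, abs_of_nonpos (by linarith)]
      exact mul_le_mul (by linarith) (hTv v) (norm_nonneg _) hδ0.le
    have e3 : (S - T) v = ((S' v).fst - ((M⁻¹ : ℝ) : 𝕜) • T v) +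
        (((M⁻¹ : ℝ) : 𝕜) • T v - T v) + g (S' v).snd • y := by
      rw [sub_apply, hSv]; abel
    rw [e3]
    have h4 := norm_add₃_le (a := (S' v).fst - ((M⁻¹ : ℝ) : 𝕜) • T v)
      (b := ((M⁻¹ : ℝ) : 𝕜) • T v - T v) (c := g (S' v).snd • y)
    have h5 := hgy (S' v).snd
    have h6 : M⁻¹ * (δ * ‖v‖) ≤ 1 * (δ * ‖v‖) := mul_le_mul_of_nonneg_right hMi1 (by positivity)
    have h7 : 0 ≤ δ * ‖v‖ := by positivity
    linarith

end Pool.Agent.Results.MP_2e9c83_an.Universal
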